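import Mathlib

set_option autoImplicit false

open scoped commutatorElement

namespace Pool.Agent.Helper62.CPD

/-- `G` is powerful: the commutator subgroup lies in the subgroup generated by all `p`-th powers,
for `p = 2` by all fourth powers. -/
def Powerful (p : ℕ) (G : Type) [Group G] : Prop :=
  commutator G ≤ Subgroup.closure {g | ∃ x : G, x ^ (if p = 2 then 4 else p) = g}

/-- The lower exponent-`p` central series of `G`: `P_0 = G` and
`P_(i+1) = [P_i, G] P_i^p`, the subgroup generated by the commutators `[x, g]` and the powers `x^p`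
for `x` in `P_i` and `g` in `G`. -/
def lowerP (p : ℕ) (G : Type) [Group G] : ℕ → Subgroup G
  | 0 => ⊤
  | i + 1 => ⁅lowerP p G i, (⊤ : Subgroup G)⁆ ⊔
      Subgroup.closure {g | ∃ x ∈ lowerP p G i, x ^ p = g}

end Pool.Agent.Helper62.CPD
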