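import Mathlib
import Pool.Agent.Helper94.CoD.Defs
import Pool.Agent.Helper62.CP.Main
import Pool.Agent.Helper62.CPD.Defs

set_option autoImplicit false

namespace Pool.Agent.Helper62.CPD

theorem lowerP_eq (p : ℕ) (G : Type) [Group G] (i : ℕ) :
    lowerP p G i = Pool.Agent.Helper62.CP.lowerP p G i := by
  induction i with
  | zero => rfl
  | succ i ih =>
    change ⁅lowerP p G i, (⊤ : Subgroup G)⁆ ⊔
        Subgroup.closure {g | ∃ x ∈ lowerP p G i, x ^ p = g} =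
      ⁅Pool.Agent.Helper62.CP.lowerP p G i, (⊤ : Subgroup G)⁆ ⊔
        Subgroup.closure {g | ∃ x ∈ Pool.Agent.Helper62.CP.lowerP p G i, x ^ p = g}
    rw [ih]

theorem final (p : ℕ) [Fact p.Prime] (G : Type) [Group G] [Finite G] (hG : IsPGroup p G)
    (h : Powerful p G ∨
      (p ≠ 2 ∧ ∃ e : ℕ, lowerP p G (e + 1) = ⊥ ∧ ∃ y : G, y ^ p ^ e ≠ 1)) :
    Pool.Agent.Helper94.CoD.CoDedekindian G ↔ IsCyclic G := by
  have h' : Pool.Agent.Helper62.CP.Powerful p G ∨ (p ≠ 2 ∧ ∃ e : ℕ,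
      Pool.Agent.Helper62.CP.lowerP p G (e + 1) = ⊥ ∧ ∃ y : G, y ^ p ^ e ≠ 1) := by
    rcases h with h | ⟨hp2, e, he, y, hy⟩
    · exact Or.inl h
    · exact Or.inr ⟨hp2, e, by rw [← lowerP_eq]; exact he, y, hy⟩
  exact Pool.Agent.Helper62.CP.main hG h'

end Pool.Agent.Helper62.CPD
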